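import Mathlib

namespace Pool.Agent.H.MP_3853ed_lc

variable {α : Type}

/-- number of classes -/
noncomputable def c (X : Setoid α) : ℕ := Nat.card (Quotient X)

def add (X : Setoid α) (u v : α) : Setoid α where
  r x y := X x y ∨ X x u ∧ X v y ∨ X x v ∧ X u y
  iseqv := by
    have s := @X.symm'
    have t := @X.trans'
    refine ⟨fun x => .inl (X.refl' x), ?_, ?_⟩
    · rintro x y (h | h | h)
      exacts [.inl (s h), .inr (.inr ⟨s h.2, s h.1⟩), .inr (.inl ⟨s h.2, s h.1⟩)]
    · rintro x y z (h | h | h) (k | k | k)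
      exacts [.inl (t h k), .inr (.inl ⟨t h k.1, k.2⟩), .inr (.inr ⟨t h k.1, k.2⟩),
        .inr (.inl ⟨h.1, t h.2 k⟩), .inr (.inl ⟨h.1, k.2⟩), .inl (t h.1 k.2),
        .inr (.inr ⟨h.1, t h.2 k⟩), .inl (t h.1 k.2), .inr (.inr ⟨h.1, k.2⟩)]

theorem add_iff (X : Setoid α) (u v x y) :
    add X u v x y ↔ X x y ∨ X x u ∧ X v y ∨ X x v ∧ X u y := Iff.rfl

theorem add_le {X W : Setoid α} {u v} : add X u v ≤ W ↔ X ≤ W ∧ W u v := by
  refine ⟨fun h => ⟨fun _ _ k => h (.inl k), h (.inr (.inl ⟨X.refl' _, X.refl' _⟩))⟩, ?_⟩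
  rintro ⟨h, k⟩ x y (a | a | a)
  exacts [h a, W.trans' (h a.1) (W.trans' k (h a.2)), W.trans' (h a.1) (W.trans' (W.symm' k) (h a.2))]

theorem add_sup (X Y : Setoid α) (u v) : add X u v ⊔ Y = add (X ⊔ Y) u v :=
  eq_of_forall_ge_iff fun W => by simp only [add_le, sup_le_iff]; tauto

variable [Finite α]

theorem c_mono {X Y : Setoid α} (h : X ≤ Y) : c Y ≤ c X :=
  Nat.card_le_card_of_surjective (Quotient.map' id fun _ _ k => h k) fun q =>
    Quotient.inductionOn' q fun x => ⟨Quotient.mk'' x, rfl⟩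

open Classical in
theorem c_add (X : Setoid α) (u v) : c (add X u v) + (if X u v then 0 else 1) = c X := by
  split_ifs with h
  · rw [le_antisymm (add_le.2 ⟨le_rfl, h⟩) (add_le.1 le_rfl).1]; rfl
  let f : Quotient X → Quotient (add X u v) := Quotient.map' id fun _ _ k => .inl k
  have a : f '' (Set.univ \ {Quotient.mk'' v}) = Set.univ := Set.eq_univ_of_forall fun q =>
    Quotient.inductionOn' q fun x => by
      by_cases k : X x v
      · exact ⟨Quotient.mk'' u, ⟨trivial, fun e => h (Quotient.exact' e)⟩,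
          Quotient.sound' (.inr (.inl ⟨X.refl' _, X.symm' k⟩))⟩
      · exact ⟨Quotient.mk'' x, ⟨trivial, fun e => k (Quotient.exact' e)⟩, rfl⟩
  rw [c, c, ← Set.ncard_univ, ← Set.ncard_univ, ← a, Set.InjOn.ncard_image,
    Set.ncard_sdiff_singleton_add_one (Set.mem_univ _)]
  intro p ⟨_, hp⟩ q ⟨_, hq⟩ e
  induction p using Quotient.inductionOn'
  induction q using Quotient.inductionOn'
  obtain k | k | k := Quotient.exact' e
  exacts [Quotient.sound' k, (hq (Quotient.sound' (X.symm' k.2))).elim, (hp (Quotient.sound' k.1)).elim]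

theorem formula (G : SimpleGraph (Setoid α))
    (hG : ∀ X Y, G.Adj X Y ↔ ∃ u v, ¬ X u v ∧ Y = add X u v ∨ ¬ Y u v ∧ X = add Y u v)
    (X Y : Setoid α) : G.dist X Y + 2 * c (X ⊔ Y) = c X + c Y := by
  have up : ∀ k (X W : Setoid α), X ≤ W → c X = c W + k → ∃ p : G.Walk X W, p.length = k := by
    have ex : ∀ X W : Setoid α, X ≤ W → X ≠ W → ∃ u v, ¬ X u v ∧ add X u v ≤ W := fun X W h e => by
      by_contra! k
      exact e (le_antisymm h fun u v a => by_contra fun b => k u v b (add_le.2 ⟨h, a⟩))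
    intro k
    induction k with
    | zero =>
      intro X W h e
      obtain rfl : X = W := by_contra fun n => by
        obtain ⟨u, v, a, b⟩ := ex X W h n
        have := c_add X u v
        have := c_mono b
        rw [if_neg a] at *
        omega
      exact ⟨.nil, rfl⟩
    | succ k ih =>
      intro X W h e
      obtain ⟨u, v, a, b⟩ := ex X W h (by rintro rfl; omega)
      have := c_add X u v
      rw [if_neg a] at this
      obtain ⟨p, hp⟩ := ih _ W b (by omega)
      exact ⟨.cons ((hG _ _).2 ⟨u, v, .inl ⟨a, rfl⟩⟩) p, by simp [hp]⟩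
  have lo : ∀ (X Y : Setoid α) (p : G.Walk X Y), c X + c Y ≤ p.length + 2 * c (X ⊔ Y) := by
    intro X Y p
    induction p with
    | nil => simp [two_mul]
    | @cons X Z Y h p ih =>
      rw [SimpleGraph.Walk.length_cons]
      obtain ⟨u, v, ⟨a, rfl⟩ | ⟨a, rfl⟩⟩ := (hG _ _).1 h
      · have := c_add X u v
        have := c_add (X ⊔ Y) u v
        rw [add_sup, if_neg a] at *
        omega
      · have := c_add Z u v
        have := c_add (Z ⊔ Y) u v
        rw [add_sup, if_neg a] at *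
        split_ifs at this <;> omega
  have h1 := c_mono (le_sup_left : X ≤ X ⊔ Y)
  have h2 := c_mono (le_sup_right : Y ≤ X ⊔ Y)
  obtain ⟨p, hp⟩ := up (c X - c (X ⊔ Y)) X (X ⊔ Y) le_sup_left (by omega)
  obtain ⟨q, hq⟩ := up (c Y - c (X ⊔ Y)) Y (X ⊔ Y) le_sup_right (by omega)
  have h3 := SimpleGraph.dist_le (p.append q.reverse)
  obtain ⟨r, hr⟩ := (p.append q.reverse).reachable.exists_walk_length_eq_dist
  have := lo _ _ r
  simp at h3
  omega

def m {N : ℕ} (X : Setoid (Fin N)) (v : ℕ) : Prop := ∀ u w, X u w → w.1 = v → v ≤ u.1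

open Classical in
theorem c_eq {N : ℕ} (X : Setoid (Fin N)) :
    c X = ∑ v ∈ Finset.range N, if m X v then 1 else 0 := by
  rw [Finset.sum_range, ← Finset.card_filter, ← Fintype.card_subtype, ← Nat.card_eq_fintype_card]
  refine (Nat.card_eq_of_bijective (fun v => Quotient.mk'' v.1) ⟨fun u v e => ?_, fun q => ?_⟩).symm
  · have := Quotient.exact' e
    exact Subtype.ext (Fin.ext (le_antisymm (u.2 _ _ (X.symm' this) rfl) (v.2 _ _ this rfl)))
  · induction q using Quotient.inductionOn' with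
    | h x =>
    obtain ⟨y, a, b⟩ := (Finset.univ.filter fun y => X y x).exists_min_image id ⟨x, by simp⟩
    simp only [Finset.mem_filter, Finset.mem_univ, true_and] at a b
    exact ⟨⟨y, fun u w k e => b u (X.trans' k (Fin.ext e ▸ a))⟩, Quotient.sound' a⟩

theorem sum4 (n : ℕ) (f : ℕ → ℕ) : ∑ v ∈ Finset.range (4 * n), f v =
    ∑ j ∈ Finset.range n, (f (4 * j) + f (4 * j + 1) + f (4 * j + 2) + f (4 * j + 3)) := by
  induction n with
  | zero => rfl
  | succ n ih => simp only [Nat.mul_succ, Finset.sum_range_succ, ih]; omega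

def K (N : ℕ) (g : ℕ → ℕ) : Setoid (Fin N) := Setoid.ker fun v => g v

theorem K_iff {N g u v} : K N g u v ↔ g u = g v := Iff.rfl

theorem c_K (n : ℕ) (g : ℕ → ℕ) (h : ∀ v, g v ≤ v ∧ g (g v) = g v) :
    c (K (4 * n) g) = ∑ j ∈ Finset.range n, ((if g (4 * j) = 4 * j then 1 else 0) +
      (if g (4 * j + 1) = 4 * j + 1 then 1 else 0) + (if g (4 * j + 2) = 4 * j + 2 then 1 else 0) +
      (if g (4 * j + 3) = 4 * j + 3 then 1 else 0)) := by
  classical
  rw [c_eq, ← sum4 n fun v => if g v = v then 1 else 0]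
  refine Finset.sum_congr rfl fun v hv => if_congr ⟨fun k => le_antisymm (h v).1
    (k ⟨g v, (h v).1.trans_lt (Finset.mem_range.1 hv)⟩ ⟨v, Finset.mem_range.1 hv⟩ (h v).2 rfl), ?_⟩ rfl rfl
  rintro k u w a rfl
  rw [← k, ← K_iff.1 a]
  exact (h u).1

def gX (v : ℕ) : ℕ := v / 2 * 2
def gY (v : ℕ) : ℕ := v / 4 * 4 + v % 2
def gS (σ : ℕ → Bool) (v : ℕ) : ℕ := if σ (v / 4) then gX v else gY v
def gZ (j l v : ℕ) : ℕ := if v = 4 * l then 4 * j else if v = 4 * l + 2 then 4 * j + 1 else v

theorem cS (n σ) : c (K (4 * n) (gS σ)) = 2 * n := by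
  rw [c_K, Finset.sum_const_nat (m := 2), Finset.card_range, mul_comm]
  · intro j _
    simp only [gS, gX, gY]
    grind
  · intro v
    simp only [gS, gX, gY]
    grind

theorem cB (n) : c (K (4 * n) id) = 4 * n := by rw [c_K] <;> simp [mul_comm]

theorem good (n σ) : 3 * n ≤ c (K (4 * n) gX ⊔ K (4 * n) (gS σ)) + c (K (4 * n) gY ⊔ K (4 * n) (gS σ)) := by
  have a : K (4 * n) gX ⊔ K (4 * n) (gS σ) ≤ K _ fun v => if σ (v / 4) then gX v else v / 4 * 4 :=
    sup_le (fun u v => by simp only [K_iff, gX]; grind) fun u v => by simp only [K_iff, gS, gX, gY]; grind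
  have b : K (4 * n) gY ⊔ K (4 * n) (gS σ) ≤ K _ fun v => if σ (v / 4) then v / 4 * 4 else gY v :=
    sup_le (fun u v => by simp only [K_iff, gY]; grind) fun u v => by simp only [K_iff, gS, gX, gY]; grind
  refine le_trans (le_of_eq ?_) (add_le_add (c_mono a) (c_mono b))
  rw [c_K, c_K, ← Finset.sum_add_distrib, Finset.sum_const_nat (m := 3), Finset.card_range, mul_comm]
  · intro x _
    have : 4 * x / 4 = x ∧ (4 * x + 1) / 4 = x ∧ (4 * x + 2) / 4 = x ∧ (4 * x + 3) / 4 = x := by omega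
    simp only [gX, gY, this]
    cases σ x <;> simp <;> grind
  all_goals
    intros
    simp only [gX, gY]
    grind

theorem bad (n) (Y : Setoid (Fin (4 * n))) :
    4 * c (K _ gX ⊔ Y) + 4 * c (K _ gY ⊔ Y) < 6 * n + 3 * c Y ∨
    4 * c (K _ gX ⊔ Y) + 4 * c (K _ gY ⊔ Y) ≤ 6 * n + 3 * c Y ∧ ∃ σ, Y = K _ (gS σ) := by
  classical
  generalize hP : K _ gX ⊔ Y = P
  generalize hQ : K _ gY ⊔ Y = Q
  have p1 : ∀ u v : Fin (4 * n), gX u = gX v → P u v := fun u v h => (hP ▸ le_sup_left : K _ gX ≤ P) h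
  have q1 : ∀ u v : Fin (4 * n), gY u = gY v → Q u v := fun u v h => (hQ ▸ le_sup_left : K _ gY ≤ Q) h
  have p2 : ∀ u v, Y u v → P u v := fun u v h => (hP ▸ le_sup_right : Y ≤ P) h
  have q2 : ∀ u v, Y u v → Q u v := fun u v h => (hQ ▸ le_sup_right : Y ≤ Q) h
  let G (j : ℕ) : Prop := m P (4 * j) ∧ m P (4 * j + 2) ∧ ¬ m Y (4 * j + 1) ∧ ¬ m Y (4 * j + 3)
  let H (j : ℕ) : Prop := m Q (4 * j) ∧ m Q (4 * j + 1) ∧ m P (4 * j) ∧ ¬ m P (4 * j + 2) ∧
    ¬ m Y (4 * j + 2) ∧ ¬ m Y (4 * j + 3)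
  let i (X : Setoid (Fin (4 * n))) (v : ℕ) : ℕ := if m X v then 1 else 0
  have k : ∀ j ∈ Finset.range n, 4 * (i P (4 * j) + i P (4 * j + 1) + i P (4 * j + 2) + i P (4 * j + 3)) +
      4 * (i Q (4 * j) + i Q (4 * j + 1) + i Q (4 * j + 2) + i Q (4 * j + 3)) + (if G j ∨ H j then 0 else 1) ≤
      6 + 3 * (i Y (4 * j) + i Y (4 * j + 1) + i Y (4 * j + 2) + i Y (4 * j + 3)) := fun j hj => by
    have hj := Finset.mem_range.1 hj
    let w (t : Fin 4) : Fin (4 * n) := ⟨4 * j + t, by omega⟩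
    have a1 : ¬ m P (4 * j + 1) := fun h => by
      simpa [w] using h (w 0) (w 1) (p1 _ _ (by simp [w, gX]; omega)) rfl
    have a2 : ¬ m P (4 * j + 3) := fun h => by
      simpa [w] using h (w 2) (w 3) (p1 _ _ (by simp [w, gX]; omega)) rfl
    have a3 : ¬ m Q (4 * j + 2) := fun h => by
      simpa [w] using h (w 0) (w 2) (q1 _ _ (by simp [w, gY]; omega)) rfl
    have a4 : ¬ m Q (4 * j + 3) := fun h => by
      simpa [w] using h (w 1) (w 3) (q1 _ _ (by simp [w, gY]; omega)) rfl
    have a5 : ∀ v, m P v → m Y v := fun v h u w a => h u w (p2 _ _ a)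
    have a6 : ∀ v, m Q v → m Y v := fun v h u w a => h u w (q2 _ _ a)
    have a7 : m P (4 * j + 2) → m Q (4 * j + 1) → m Y (4 * j + 3) := fun h h' u v a e => by
      have := h u (w 2) (P.trans' (p2 _ _ a) (p1 _ _ (by simp [w, gX]; omega))) rfl
      by_contra l
      have := h' (w 0) (w 1) (Q.trans' (q1 _ u (by simp [w, gY]; omega))
        (Q.trans' (q2 _ _ a) (q1 _ _ (by simp [w, gY]; omega)))) rfl
      simp [w] at this
    have := a5 (4 * j)
    have := a5 (4 * j + 2)
    have := a6 (4 * j)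
    have := a6 (4 * j + 1)
    simp only [i, G, H, a1, a2, a3, a4]
    by_cases m P (4 * j) <;> by_cases m P (4 * j + 2) <;> by_cases m Q (4 * j) <;> by_cases m Q (4 * j + 1) <;>
      by_cases m Y (4 * j + 3) <;> simp_all <;> grind
  have s := Finset.sum_le_sum k
  simp only [Finset.sum_add_distrib (f := fun j => 4 * _ + 4 * _), Finset.sum_add_distrib (f := fun j => 4 * _),
    Finset.sum_add_distrib (f := fun j => 6), ← Finset.mul_sum] at s
  have hc : ∀ X, ∑ j ∈ Finset.range n, (i X (4 * j) + i X (4 * j + 1) + i X (4 * j + 2) + i X (4 * j + 3)) =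
      c X := fun X => by rw [c_eq, sum4]
  rw [hc, hc, hc] at s
  simp only [Finset.sum_const, Finset.card_range, smul_eq_mul] at s
  by_cases a : ∀ j < n, G j ∨ H j
  · refine .inr ⟨by omega, fun j => decide (G j), ?_⟩
    have b : ∀ v : Fin (4 * n), ∃ w : Fin (4 * n), w.1 = gS (fun j => decide (G j)) v ∧ Y w v ∧
        ∀ u, Y u v → u ≤ v → gS (fun j => decide (G j)) u = w := fun v => by
      have hj : v / 4 < n := by omega
      by_cases g : G (v / 4)
      · have g1 : m P (gX v) := by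
          obtain e | e : gX v = 4 * (v / 4) ∨ gX v = 4 * (v / 4) + 2 := by simp [gX]; omega
          exacts [e ▸ g.1, e ▸ g.2.1]
        let w : Fin (4 * n) := ⟨gX v, by simp [gX]; omega⟩
        have g2 : ∀ u, Y u v → gX v ≤ u := fun u h =>
          g1 u w (P.trans' (p2 _ _ h) (p1 _ _ (by simp [w, gX]))) rfl
        refine ⟨w, by simp [gS, g, w], ?_, fun u h l => ?_⟩
        · by_cases e : w = v
          · exact e ▸ Y.refl' _
          have : ¬ m Y v := by
            obtain e | e : v.1 = 4 * (v / 4) + 1 ∨ v.1 = 4 * (v / 4) + 3 := by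
              simp [w, gX, Fin.ext_iff] at e; omega
            exacts [e ▸ g.2.2.1, e ▸ g.2.2.2]
          simp only [m, not_forall] at this
          obtain ⟨u, x, a, b, l⟩ := this
          obtain rfl := Fin.ext b
          have := g2 u a
          rwa [show w = u from Fin.ext (by simp only [w, gX] at *; omega)]
        · have := g2 u h
          have l : u.1 ≤ v.1 := l
          have e : u.1 / 4 = v / 4 := by simp only [gX] at *; omega
          simp only [gS, e, g, w, gX, decide_true, if_true] at *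
          omega
      · have g' := (a _ hj).resolve_left g
        have g1 : m Q (gY v) := by
          obtain e | e : gY v = 4 * (v / 4) ∨ gY v = 4 * (v / 4) + 1 := by simp [gY]; omega
          exacts [e ▸ g'.1, e ▸ g'.2.1]
        let w : Fin (4 * n) := ⟨gY v, by simp [gY]; omega⟩
        have g2 : ∀ u, Y u v → u ≤ v → gY u = gY v ∧ u.1 / 4 = v / 4 := fun u h l => by
          have l : u.1 ≤ v.1 := l
          have := g1 u w (Q.trans' (q2 _ _ h) (q1 _ _ (by simp [w, gY]; omega))) rfl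
          by_contra z
          have := g'.2.1 ⟨4 * (v / 4), by omega⟩ ⟨4 * (v / 4) + 1, by omega⟩ (by
            by_cases e : v.1 % 2 = 0
            · exact Q.trans' (q1 _ v (by simp [gY]; omega)) (Q.trans' (Q.symm' (q2 _ _ h))
                (q1 _ _ (by simp only [gY] at *; omega)))
            · exact Q.trans' (q1 _ u (by simp only [gY] at *; omega)) (Q.trans' (q2 _ _ h)
                (q1 _ _ (by simp only [gY] at *; omega)))) rfl
          simp at this
        refine ⟨w, by simp [gS, g, w], ?_, fun u h l => by simp [gS, g2 u h l, g, w]⟩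
        by_cases e : w = v
        · exact e ▸ Y.refl' _
        have : ¬ m Y v := by
          obtain e | e : v.1 = 4 * (v / 4) + 2 ∨ v.1 = 4 * (v / 4) + 3 := by
            simp [w, gY, Fin.ext_iff] at e; omega
          exacts [e ▸ g'.2.2.2.2.1, e ▸ g'.2.2.2.2.2]
        simp only [m, not_forall] at this
        obtain ⟨u, x, a, b, l⟩ := this
        obtain rfl := Fin.ext b
        have := g2 u a (not_le.1 l).le
        rwa [show w = u from Fin.ext (by simp only [w, gY] at *; omega)]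
    choose w b1 b2 b3 using b
    ext u v
    refine ⟨fun h => ?_, fun h => Y.trans' (Y.symm' (b2 u)) (by
      rw [show w u = w v from Fin.ext (by rw [b1, b1]; exact h)]; exact b2 v)⟩
    rcases le_total u v with l | l
    · exact (b3 v u h l).trans (b1 v)
    · exact ((b3 u v (Y.symm' h) l).trans (b1 u)).symm
  · simp only [not_forall] at a
    obtain ⟨j, hj, a⟩ := a
    have := Finset.single_le_sum (f := fun j => if G j ∨ H j then 0 else 1) (fun _ _ => Nat.zero_le _)
      (Finset.mem_range.2 hj)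
    simp only [a, if_false] at this
    exact .inl (by omega)

theorem gad {n j l : ℕ} (hj : j < n) (hl : l < n) (e : j ≠ l) (σ : ℕ → Bool) :
    c (K (4 * n) (gZ j l)) + 2 = 4 * n ∧
    c (K (4 * n) (gZ j l) ⊔ K _ (gS σ)) + 2 = 2 * n + if σ j = true ∧ σ l = false then 1 else 0 := by
  have z : K (4 * n) (gZ j l) = add (add (K _ id) ⟨4 * j, by omega⟩ ⟨4 * l, by omega⟩)
      ⟨4 * j + 1, by omega⟩ ⟨4 * l + 2, by omega⟩ := by
    ext u v
    simp only [add_iff, K_iff, gZ, id]
    grind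
  have b : K (4 * n) id ⊔ K _ (gS σ) = K _ (gS σ) := sup_eq_right.2 fun u v h => congrArg (gS σ) h
  rw [z, add_sup, add_sup, b]
  classical
  have k : ∀ (X : Setoid (Fin (4 * n))) a b u v, ¬ X a b → c (add (add X a b) u v) + 2 = c X +
      if add X a b u v then 1 else 0 := fun X a b u v h => by
    have := c_add X a b
    have := c_add (add X a b) u v
    grind
  have : 4 * j / 4 = j ∧ (4 * j + 1) / 4 = j ∧ 4 * l / 4 = l ∧ (4 * l + 2) / 4 = l := by omega
  rw [k, k, cS, cB]
  · simp only [add_iff, K_iff, gS, gX, gY, id, this]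
    cases σ j <;> cases σ l <;> simp <;> grind
  all_goals
    simp only [K_iff, gS, gX, gY, id, this]
    grind

end Pool.Agent.H.MP_3853ed_lc
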